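import Pool.Graph.R_pool_sql_team_seeded_63374d34.N538.PQ.Stm

/-!
# Rankin's bound: few integers up to `n` have only prime factors below `exp ((log n) ^ (1/5))`

This is the part `S_RANKIN` of the project `N538.PQ`, which was open.
-/

set_option autoImplicit false

namespace Pool.Agent.H251.PQ

open Finset Filter
open Pool.Agent.N538.PQ (yy S_RANKIN)

/-- the completely multiplicative function `m ↦ m ^ (-σ)` -/
noncomputable def pw (σ : ℝ) : ℕ →* ℝ where
  toFun m := (m : ℝ) ^ (-σ)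
  map_one' := by simp
  map_mul' a b := by
    push_cast
    exact Real.mul_rpow (Nat.cast_nonneg a) (Nat.cast_nonneg b)

lemma pw_apply (σ : ℝ) (m : ℕ) : pw σ m = (m : ℝ) ^ (-σ) := rfl

lemma pw_nonneg (σ : ℝ) (m : ℕ) : 0 ≤ pw σ m := by
  rw [pw_apply]; positivity

/-- the Euler factors -/
lemma factor_le {σ : ℝ} (hσ : 1 / 2 ≤ σ) {p : ℕ} (hp : 2 ≤ p) :
    pw σ p < 1 ∧ (1 - pw σ p)⁻¹ ≤ Real.exp (4 * pw σ p) := by
  have hp' : (2 : ℝ) ≤ p := by exact_mod_cast hp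
  have h1 : pw σ p ≤ 3 / 4 := by
    rw [pw_apply]
    calc (p : ℝ) ^ (-σ) ≤ (p : ℝ) ^ (-(1 / 2) : ℝ) :=
          Real.rpow_le_rpow_of_exponent_le (by linarith) (by linarith)
      _ ≤ (2 : ℝ) ^ (-(1 / 2) : ℝ) :=
          Real.rpow_le_rpow_of_nonpos (by norm_num) hp' (by norm_num)
      _ ≤ 3 / 4 := by
          rw [Real.rpow_neg (by norm_num), ← Real.sqrt_eq_rpow]
          have h2 : (4 / 3 : ℝ) ≤ Real.sqrt 2 := by
            apply Real.le_sqrt_of_sq_le; norm_num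
          calc (Real.sqrt 2)⁻¹ ≤ (4 / 3 : ℝ)⁻¹ := inv_anti₀ (by norm_num) h2
            _ = 3 / 4 := by norm_num
  have h0 := pw_nonneg σ p
  refine ⟨by linarith, ?_⟩
  have h3 : (1 - pw σ p)⁻¹ ≤ 1 + 4 * pw σ p := by
    rw [inv_le_iff_one_le_mul₀ (by linarith)]
    nlinarith
  linarith [Real.add_one_le_exp (4 * pw σ p)]

/-- the bound for the sum over smooth numbers -/
lemma smooth_sum_le {σ : ℝ} (hσ : 1 / 2 ≤ σ) (N : ℕ) (S : Finset ℕ)
    (hS : ∀ m ∈ S, m ∈ N.smoothNumbers) :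
    ∑ m ∈ S, pw σ m ≤ Real.exp (4 * ∑ p ∈ N.primesBelow, pw σ p) := by
  have h1 : ∀ {p : ℕ}, p.Prime → ‖pw σ p‖ < 1 := by
    intro p hp
    rw [Real.norm_of_nonneg (pw_nonneg σ p)]
    exact (factor_le hσ hp.two_le).1
  obtain ⟨h2, h3⟩ := EulerProduct.summable_and_hasSum_smoothNumbers_prod_primesBelow_geometric
    (f := pw σ) h1 N
  have h4 : ∑ m ∈ S, pw σ m ≤ ∏ p ∈ N.primesBelow, (1 - pw σ p)⁻¹ := by
    let e : {x // x ∈ S} ↪ N.smoothNumbers := ⟨fun m => ⟨m.1, hS m.1 m.2⟩, fun _ _ h =>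
          Subtype.ext (congrArg (fun z : N.smoothNumbers => (z : ℕ)) h)⟩
    have h5 : ∑ m ∈ S, pw σ m = ∑ m ∈ S.attach.map e, pw σ (m : ℕ) := by
      rw [Finset.sum_map]
      exact (Finset.sum_attach S (fun m => pw σ m)).symm
    rw [h5]
    exact sum_le_hasSum _ (fun m _ => pw_nonneg σ m) h3
  refine h4.trans ?_
  rw [Finset.mul_sum, Real.exp_sum]
  apply Finset.prod_le_prod
  · intro p hp
    have hp2 := (Nat.mem_primesBelow.1 hp).2
    have := (factor_le hσ hp2.two_le).1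
    exact inv_nonneg.2 (by linarith)
  · intro p hp
    exact (factor_le hσ (Nat.mem_primesBelow.1 hp).2.two_le).2

/-- the sum over the primes -/
lemma primes_sum_le {w : ℝ} (hw : 1 ≤ w) (N : ℕ) (hN : ∀ m : ℕ, m < N → (m : ℝ) ≤ Real.exp w)
    (hN2 : (N : ℝ) ≤ 2 * Real.exp w) :
    ∑ p ∈ N.primesBelow, pw (1 - 1 / w) p ≤ 3 * (w + 2) := by
  have h1 : ∀ p ∈ N.primesBelow, pw (1 - 1 / w) p ≤ Real.exp 1 * ((p : ℝ))⁻¹ := by
    intro p hp
    obtain ⟨hp1, hp2⟩ := Nat.mem_primesBelow.1 hp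
    have hp0 : (0 : ℝ) < p := by exact_mod_cast hp2.pos
    rw [pw_apply]
    have : (p : ℝ) ^ (-(1 - 1 / w)) = (p : ℝ) ^ (1 / w) * (p : ℝ)⁻¹ := by
      rw [← Real.rpow_neg_one, ← Real.rpow_add hp0]
      congr 1; ring
    rw [this]
    apply mul_le_mul_of_nonneg_right _ (by positivity)
    calc (p : ℝ) ^ (1 / w) ≤ (Real.exp w) ^ (1 / w) :=
          Real.rpow_le_rpow hp0.le (hN p hp1) (by positivity)
      _ = Real.exp 1 := by
          rw [← Real.exp_mul]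
          congr 1
          field_simp
  have h2 : ∑ p ∈ N.primesBelow, ((p : ℝ))⁻¹ ≤ 1 + Real.log N := by
    calc ∑ p ∈ N.primesBelow, ((p : ℝ))⁻¹ ≤ ∑ p ∈ Finset.Icc 1 N, ((p : ℝ))⁻¹ := by
          apply Finset.sum_le_sum_of_subset_of_nonneg
          · intro p hp
            obtain ⟨hp1, hp2⟩ := Nat.mem_primesBelow.1 hp
            exact Finset.mem_Icc.2 ⟨hp2.one_le, hp1.le⟩
          · intro i _ _; positivity
      _ = ((harmonic N : ℚ) : ℝ) := by
          rw [harmonic_eq_sum_Icc]; push_cast; rfl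
      _ ≤ 1 + Real.log N := harmonic_le_one_add_log N
  have h3 : Real.log N ≤ w + 1 := by
    rcases Nat.eq_zero_or_pos N with h | h
    · rw [h]; simp; linarith
    · have hN0 : (0 : ℝ) < N := by exact_mod_cast h
      calc Real.log N ≤ Real.log (2 * Real.exp w) := Real.log_le_log hN0 hN2
        _ = Real.log 2 + w := by rw [Real.log_mul (by norm_num) (Real.exp_pos _).ne', Real.log_exp]
        _ ≤ w + 1 := by linarith [Real.log_two_lt_d9]
  calc ∑ p ∈ N.primesBelow, pw (1 - 1 / w) p ≤ ∑ p ∈ N.primesBelow, Real.exp 1 * ((p : ℝ))⁻¹ :=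
        Finset.sum_le_sum h1
    _ = Real.exp 1 * ∑ p ∈ N.primesBelow, ((p : ℝ))⁻¹ := by rw [Finset.mul_sum]
    _ ≤ 3 * (w + 2) := by
        apply mul_le_mul (by linarith [Real.exp_one_lt_d9]) (by linarith)
          (Finset.sum_nonneg fun i _ => by positivity) (by norm_num)

theorem t_RANKIN : S_RANKIN := by
  classical
  unfold S_RANKIN
  have hlog : Tendsto (fun n : ℕ => Real.log (n : ℝ)) atTop atTop :=
    Real.tendsto_log_atTop.comp tendsto_natCast_atTop_atTop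
  filter_upwards [hlog.eventually_ge_atTop (1024), eventually_gt_atTop 10] with n hL hn
  set L := Real.log (n : ℝ) with hLdef
  set w := L ^ ((1 : ℝ) / 5) with hw
  have hLpos : 0 < L := by linarith
  have hw5 : w ^ 5 = L := by
    rw [hw, ← Real.rpow_natCast, ← Real.rpow_mul hLpos.le]; norm_num
  have hw0 : 0 ≤ w := Real.rpow_nonneg hLpos.le _
  have hw4 : 4 ≤ w := by
    by_contra hcon
    push Not at hcon
    have : w ^ 5 < 4 ^ 5 := pow_lt_pow_left₀ hcon hw0 (by norm_num)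
    rw [hw5] at this
    norm_num at this
    linarith
  have hn0 : (0 : ℝ) < n := by exact_mod_cast (by omega : 0 < n)
  set σ := 1 - 1 / w with hσ
  have hσ2 : 1 / 2 ≤ σ := by
    have : 1 / w ≤ 1 / 4 := one_div_le_one_div_of_le (by norm_num) hw4
    rw [hσ]; linarith
  have hy : yy n = Real.exp w := rfl
  set N := ⌈Real.exp w⌉₊ with hN
  have hN1 : ∀ m : ℕ, m < N → (m : ℝ) ≤ Real.exp w := fun m hm => (Nat.lt_ceil.1 hm).le
  have hN2 : (N : ℝ) ≤ 2 * Real.exp w := by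
    have h1 : (N : ℝ) < Real.exp w + 1 := Nat.ceil_lt_add_one (Real.exp_pos _).le
    have h2 : 1 ≤ Real.exp w := Real.one_le_exp hw0
    linarith
  set S := (Icc 1 n).filter (fun m : ℕ => ∀ p : ℕ, p.Prime → p ∣ m → (p : ℝ) < yy n) with hS
  have hSs : ∀ m ∈ S, m ∈ N.smoothNumbers := by
    intro m hm
    rw [hS, Finset.mem_filter, Finset.mem_Icc] at hm
    rw [Nat.mem_smoothNumbers']
    intro p hp hpm
    have := hm.2 p hp hpm
    rw [hy] at this
    exact Nat.lt_ceil.2 this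
  have h1 : (S.card : ℝ) ≤ (n : ℝ) ^ σ * ∑ m ∈ S, pw σ m := by
    rw [Finset.card_eq_sum_ones, Finset.mul_sum]
    push_cast
    apply Finset.sum_le_sum
    intro m hm
    rw [hS, Finset.mem_filter, Finset.mem_Icc] at hm
    have hm0 : (0 : ℝ) < m := by exact_mod_cast hm.1.1
    rw [pw_apply, Real.rpow_neg hm0.le]
    rw [← div_eq_mul_inv, le_div_iff₀ (Real.rpow_pos_of_pos hm0 _), one_mul]
    exact Real.rpow_le_rpow hm0.le (by exact_mod_cast hm.1.2) (by linarith)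
  have h2 := smooth_sum_le hσ2 N S hSs
  have h3 := primes_sum_le (by linarith : 1 ≤ w) N hN1 hN2
  rw [← hσ] at h3
  have h4 : ∑ m ∈ S, pw σ m ≤ Real.exp (12 * (w + 2)) :=
    h2.trans (Real.exp_le_exp.2 (by linarith))
  have h5 : (n : ℝ) ^ σ = n * Real.exp (-(w ^ 4)) := by
    rw [hσ, sub_eq_add_neg, Real.rpow_add hn0, Real.rpow_one]
    congr 1
    rw [Real.rpow_def_of_pos hn0, ← hLdef, ← hw5]
    congr 1
    field_simp
  have h6 : Real.exp (-(w ^ 4)) * Real.exp (12 * (w + 2)) ≤ (L ^ 3)⁻¹ := by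
    rw [← Real.exp_add, ← Real.exp_log (pow_pos hLpos 3), ← Real.exp_neg]
    apply Real.exp_le_exp.2
    rw [← hw5, Real.log_pow, Real.log_pow]
    have hlw : Real.log w ≤ w - 1 := Real.log_le_sub_one_of_pos (by linarith)
    push_cast
    have h7 : 64 * w ≤ w ^ 4 := by
      have : (4 : ℝ) ^ 3 ≤ w ^ 3 := pow_le_pow_left₀ (by norm_num) hw4 3
      nlinarith
    nlinarith
  calc (S.card : ℝ) ≤ (n : ℝ) ^ σ * ∑ m ∈ S, pw σ m := h1
    _ ≤ (n : ℝ) ^ σ * Real.exp (12 * (w + 2)) :=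
        mul_le_mul_of_nonneg_left h4 (Real.rpow_nonneg hn0.le _)
    _ = n * (Real.exp (-(w ^ 4)) * Real.exp (12 * (w + 2))) := by rw [h5]; ring
    _ ≤ n * (L ^ 3)⁻¹ := mul_le_mul_of_nonneg_left h6 hn0.le
    _ = n / L ^ 3 := by rw [div_eq_mul_inv]

end Pool.Agent.H251.PQ
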